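import Pool.Agent.Lib.MP_ab8df0_nt.B.PackMk
import Pool.Agent.Lib.MP_ab8df0_nt.P.F5D
import Pool.Agent.Lib.MP_ab8df0_nt.A.F5.Two

/-! The places of a field. -/

namespace Pool.Agent.Lib.MP_ab8df0_nt.P.F5

open B NumberField

def lc : List (SG × LocCert) := [(⟨[-1, -1], [0, 1], 1, [0, 1], 1⟩,
    ⟨[-1, -1, 1], [1, 1, 1],
    [340282366920938463463374607431768211455, 340282366920938463463374607431768211455, 1],
    [1], []⟩)]

def oc : List OC := []

theorem pack' {K : Type} [Field K] [NumberField K] {α : 𝓞 K} (h : A.Gen α A.F5.fl) :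
    ∃ pl ph w, Pack K FDF5 α pl ph w :=
  pack_of FDF5 h A.F5.g2 (fun _ => A.F5.SU2 h) lc oc (by decide +kernel)

theorem pack : ∃ pl ph w, Pack (A.Fl A.F5.fl) FDF5 (A.rt A.F5.fl) pl ph w :=
  pack' (A.gen_rt _)

end Pool.Agent.Lib.MP_ab8df0_nt.P.F5
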