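import Pool.Agent.Lib.MP_ab8df0_nt.B.Auto

/-! Numerical data of a field. -/

namespace Pool.Agent.Lib.MP_ab8df0_nt.P

open B

def FDK2 : FD where
  fl := [-2, 0, 0]
  S := 6
  gens := [[-1],
    [0, 1],
    [1, 1],
    [-1, 1]]
  ds := [⟨3, 1, 128, 264, true,
      0x100000000000000000000000000000000,
      0x1000000000000000000000000000000000000000000000000000000000000000000000000000000000000000000000000000000000000000000000000000000000000000000000000000000000000000000000000000000000000000000000000000000,
      0x1000000000000000000000000000000000000000000000000000000000000000000,
      0x1000000000000000000000000000000000000000000000000000000000000000001000000000000000000000000000000000000000000000000000000000000000001,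
      0xffffffffffffffffffffffffffffffff0000000000000000000000000000000000ffffffffffffffffffffffffffffffff0000000000000000000000000000000000ffffffffffffffffffffffffffffffff,
      0xffffffffffffffffffffffffffffffff0000000000000000000000000000000000ffffffffffffffffffffffffffffffff0000000000000000000000000000000000ffffffffffffffffffffffffffffffff0000000000000000000000000000000000ffffffffffffffffffffffffffffffff0000000000000000000000000000000000ffffffffffffffffffffffffffffffff0000000000000000000000000000000000ffffffffffffffffffffffffffffffff,
      0xffffffffffffffffffffffffffffffff000000000000000000000000000000000000000000000000000000000000000000000000000000000000000000000000000000000000000000000000000000000000000000000000000000000000000000000000000000000000000000000000000002,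
      0x1000000000000000000000000000000000000000000000000000000000000000000,
      0xffffffffffffffffffffffffffffffff000000000000000000000000000000000000000000000000000000000000000000,
      0x1000000000000000000000000000000000000000000000000000000000000000000,
      0x2000000000000000000000000000000000000000000000000000000000000000001000000000000000000000000000000000000000000000000000000000000000000,
      0x801fc7e1f47c1ec7a1e4781dc761d4741cc721c4701bc6e1b46c1ac6a1a46819c661946418c621846017c5e1745c16c5a1645815c561545414c521445013c4e1344c12c4a1244811c461144410c42104400fc3e0f43c0ec3a0e4380dc360d4340cc320c4300bc2e0b42c0ac2a0a42809c260942408c220842007c1e0741c06c1a0641805c160541404c120441003c0e0340c02c0a0240801c060140400c0200400⟩]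
  es := [.var 0]
  re := [(1674722331998989248250939415998637325, 1674722331998989248250939415998637326, 1329227995784915872903807060280344576)]
  od := []

end Pool.Agent.Lib.MP_ab8df0_nt.P
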