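import Pool.Agent.Lib.MP_ab8df0_nt.B.PackMk
import Pool.Agent.Lib.MP_ab8df0_nt.P.K2D
import Pool.Agent.Lib.MP_ab8df0_nt.A.K2.Main

/-! The places of a field. -/

namespace Pool.Agent.Lib.MP_ab8df0_nt.P.K2

open B NumberField

def lc : List (SG × LocCert) := [(⟨[-2, 0, 0], [0, 1], 1, [0, 1], 1⟩,
    ⟨[-2, 0, 0, 1], [0, 1],
    [340282366920938463463374607431768211454, 0, 0, 1],
    [1], []⟩)]

def oc : List OC := []

theorem pack' {K : Type} [Field K] [NumberField K] {α : 𝓞 K} (h : A.Gen α A.K2.fl) :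
    ∃ pl ph w, Pack K FDK2 α pl ph w :=
  pack_of FDK2 h A.K2.g (fun _ => A.K2.SU h) lc oc (by decide +kernel)

theorem pack : ∃ pl ph w, Pack (A.Fl A.K2.fl) FDK2 (A.rt A.K2.fl) pl ph w :=
  pack' (A.gen_rt _)

end Pool.Agent.Lib.MP_ab8df0_nt.P.K2
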