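import Pool.Agent.Lib.MP_ab8df0_nt.B.PackMk
import Pool.Agent.Lib.MP_ab8df0_nt.P.K3D
import Pool.Agent.Lib.MP_ab8df0_nt.A.K3.Main

/-! The places of a field. -/

namespace Pool.Agent.Lib.MP_ab8df0_nt.P.K3

open B NumberField

def lc : List (SG × LocCert) := [(⟨[-3, 0, 0], [0, 1], 1, [0, 1], 1⟩,
    ⟨[-3, 0, 0, 1], [1, 1],
    [282675368908820574725955221992689766021, 1],
    [80016020692483402622971683384651075865, 57606998012117888737419385439078445435, 1], []⟩),
  (⟨[-3, 0, 0], [0, 1], 1, [0, 1], 1⟩,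
    ⟨[-3, 0, 0, 1], [1, 1, 1],
    [80016020692483402622971683384651075865, 57606998012117888737419385439078445435, 1],
    [282675368908820574725955221992689766021, 1], []⟩)]

def oc : List OC := []

theorem pack' {K : Type} [Field K] [NumberField K] {α : 𝓞 K} (h : A.Gen α A.K3.fl) :
    ∃ pl ph w, Pack K FDK3 α pl ph w :=
  pack_of FDK3 h A.K3.g (fun _ => A.K3.SU h) lc oc (by decide +kernel)

theorem pack : ∃ pl ph w, Pack (A.Fl A.K3.fl) FDK3 (A.rt A.K3.fl) pl ph w :=
  pack' (A.gen_rt _)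

end Pool.Agent.Lib.MP_ab8df0_nt.P.K3
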