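import Pool.Agent.Lib.MP_ab8df0_nt.B.PackMk
import Pool.Agent.Lib.MP_ab8df0_nt.P.L1D
import Pool.Agent.Lib.MP_ab8df0_nt.A.L1.Glob

/-! The places of a field. -/

namespace Pool.Agent.Lib.MP_ab8df0_nt.P.L1

open B NumberField

def lc : List (SG × LocCert) := [(⟨[2, 0, 12, -4, 24, -12, 8, 12, -24, 24, -12, 0], [-49, 183, -341, 305, -214, 42, -14, -42, 3, -21, -1, -3], 32, [44819, -54830, 182390, -179175, 90720, 75084, -193231, 210241, -126880, 26770, 5801, -2345], 17397⟩,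
    ⟨[2, 0, 12, -4, 24, -12, 8, 12, -24, 24, -12, 0, 1], [0, 1],
    [2, 0, 12, 18446744073709551612, 24, 18446744073709551604, 8, 12, 18446744073709551592, 24, 18446744073709551604, 0, 1],
    [1], []⟩)]

def oc : List OC := []

theorem pack' {K : Type} [Field K] [NumberField K] {α : 𝓞 K} (h : A.Gen α A.L1.G.fl) :
    ∃ pl ph w, Pack K FDL1 α pl ph w :=
  pack_of FDL1 h A.L1.G.g (fun _ => A.L1.G.SU h) lc oc (by decide +kernel)

theorem pack : ∃ pl ph w, Pack (A.Fl A.L1.G.fl) FDL1 (A.rt A.L1.G.fl) pl ph w :=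
  pack' (A.gen_rt _)

end Pool.Agent.Lib.MP_ab8df0_nt.P.L1
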