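import Pool.Agent.Lib.MP_ab8df0_nt.B.PackMk
import Pool.Agent.Lib.MP_ab8df0_nt.P.L2D
import Pool.Agent.Lib.MP_ab8df0_nt.A.L2.Main

/-! The places of a field. -/

namespace Pool.Agent.Lib.MP_ab8df0_nt.P.L2

open B NumberField

def lc : List (SG × LocCert) := [(⟨[-18, 108, -324, 630, -603, -180, 1144, -1344, 843, -322, 78, -12], [1, 1], 1, [-1, 1], 1⟩,
    ⟨[-18, 108, -324, 630, -603, -180, 1144, -1344, 843, -322, 78, -12, 1], [0, 1],
    [3387429136248848122, 11671885801211855372, 11487058481784954060, 10347114728173445678, 1],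
    [1301333354257358723, 13241410656680116724, 14255992577113925508, 12344177375680348830, 9646507648755497613, 15549613668852588070, 17795055741671816686, 8099629345536105926, 1], []⟩),
  (⟨[-4, 24, -6, 2, 51, -42, 35, -12, 0, 0, -3, 0], [85, 430, 943, 2005, 1204, -509, 599, 2360, 1073, 155, 74, 5], 108, [-29823522, 8656554, -9578051, -48585849, 38622751, -27352179, 11143532, 500134, -918413, 2117583, 125925, -780091], 15923594⟩,
    ⟨[-4, 24, -6, 2, 51, -42, 35, -12, 0, 0, -3, 0, 1], [1, 1, 1],
    [3401195553116323981, 3204413734331101766, 3236815256760591995, 9958224355446535468, 1],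
    [1225322508442728172, 9257059481034946000, 17289216464245870094, 11055996050183765734, 13684379442546452941, 1435193961830766790, 4418658287129434386, 8488519718263016148, 1], []⟩),
  (⟨[-2, 24, 66, 38, -9, 18, 75, 72, 72, 50, 21, 6], [-37, -196, -1603, -1669, 2036, 1631, -2699, -1730, 1423, 697, 34, 61], 108, [-1404052, -2713742, -2389338, -75474, -830631, -3728676, -3590031, -3695337, -2623557, -1111391, -319714, -53787], 885942⟩,
    ⟨[-2, 24, 66, 38, -9, 18, 75, 72, 72, 50, 21, 6, 1], [1, 1, 1],
    [11880746468658206883, 7205647921981940472, 17535707745909923543, 3193335778686706220, 1],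
    [6459668672802703850, 14319211427475617656, 16117477973998843220, 15663053421316172418, 4112873305395705947, 17502278455125732636, 17020923516903820230, 15253408295022845402, 1], []⟩)]

def oc : List OC := []

theorem pack' {K : Type} [Field K] [NumberField K] {α : 𝓞 K} (h : A.Gen α A.L2.fl) :
    ∃ pl ph w, Pack K FDL2 α pl ph w :=
  pack_of FDL2 h A.L2.g (fun _ => A.L2.SU h) lc oc (by decide +kernel)

theorem pack : ∃ pl ph w, Pack (A.Fl A.L2.fl) FDL2 (A.rt A.L2.fl) pl ph w :=
  pack' (A.gen_rt _)

end Pool.Agent.Lib.MP_ab8df0_nt.P.L2
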