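import Pool.Agent.Lib.MP_ab8df0_nt.B.PackMk
import Pool.Agent.Lib.MP_ab8df0_nt.P.L3D
import Pool.Agent.Lib.MP_ab8df0_nt.A.L3.Glob

/-! The places of a field. -/

namespace Pool.Agent.Lib.MP_ab8df0_nt.P.L3

open B NumberField

def lc : List (SG × LocCert) := [(⟨[6, 0, 36, -36, 36, -144, -20, 60, 78, 32, -12, -12], [100, -981, 4151, -10030, 16329, -17126, 12338, -5511, 1687, -101, -9, 17], 36, [-6750752163, -7173947928, -22042616496, 22656414102, 67128870684, 9554570241, -31722863944, -35033290769, -9463785958, 6635846516, 3567522697, -315828442], 1762005375⟩,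
    ⟨[6, 0, 36, -36, 36, -144, -20, 60, 78, 32, -12, -12, 1], [0, 1],
    [6, 0, 36, 18446744073709551580, 36, 18446744073709551472, 18446744073709551596, 60, 78, 32, 18446744073709551604, 18446744073709551604, 1],
    [1], []⟩)]

def oc : List OC := []

theorem pack' {K : Type} [Field K] [NumberField K] {α : 𝓞 K} (h : A.Gen α A.L3.G.fl) :
    ∃ pl ph w, Pack K FDL3 α pl ph w :=
  pack_of FDL3 h A.L3.G.g (fun _ => A.L3.G.SU h) lc oc (by decide +kernel)

theorem pack : ∃ pl ph w, Pack (A.Fl A.L3.G.fl) FDL3 (A.rt A.L3.G.fl) pl ph w :=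
  pack' (A.gen_rt _)

end Pool.Agent.Lib.MP_ab8df0_nt.P.L3
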