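import Pool.Agent.Lib.MP_ab8df0_nt.B.Auto

/-! Numerical data of a field. -/

namespace Pool.Agent.Lib.MP_ab8df0_nt.P

open B

def FDM3 : FD where
  fl := [-3, 0, 0, 0, 0, 0]
  S := 6
  gens := [[-1],
    [0, 1],
    [2],
    [1, 1],
    [-1, 1],
    [1, 0, 1],
    [-1, 0, 0, 1]]
  ds := [⟨2, 1, 64, 136, true,
      0x10000000000000000,
      0x100000000000000000000000000000000000000000000000000000000000000000000,
      0x10000000000000000000000000000000000,
      0x10000000000000000000000000000000001,
      0xffffffffffffffff000000000000000000ffffffffffffffff,
      0xffffffffffffffff000000000000000000ffffffffffffffff000000000000000000ffffffffffffffff000000000000000000ffffffffffffffff,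
      0xffffffffffffffff0000000000000000000000000000000002000000000000000000b1ffcd4dcf21f17a,
      0x1,
      0xffffffffffffffff0000000000000000000000000000000000,
      0x1,
      0x10000000000000000000000000000000000,
      0x400fc3e0f43c0ec3a0e4380dc360d4340cc320c4300bc2e0b42c0ac2a0a42809c260942408c220842007c1e0741c06c1a0641805c160541404c120441003c0e0340c02c0a0240801c060140400c0200400⟩,
    ⟨2, 2, 64, 136, false,
      0x10000000000000000,
      0x10000000000000000000000000000000000000000000000000000000000000000000000000000000000000000000000000000000000000000000000000000000000000000,
      0x100000000000000000000000000000000000000000000000000000000000000000000,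
      0x1000000000000000000000000000000000100000000000000000000000000000000010000000000000000000000000000000001,
      0xffffffffffffffff000000000000000000ffffffffffffffff000000000000000000ffffffffffffffff000000000000000000ffffffffffffffff,
      0xffffffffffffffff000000000000000000ffffffffffffffff000000000000000000ffffffffffffffff000000000000000000ffffffffffffffff000000000000000000ffffffffffffffff000000000000000000ffffffffffffffff000000000000000000ffffffffffffffff000000000000000000ffffffffffffffff,
      0xffffffffffffffff00000000000000000000000000000000000000000000000000004e0032b230de0e8500000000000000000000000000000000000000000000000000003833d4fcf0812ee7,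
      0x100000000000000000000000000000000000000000000000000004e0032b230de0e85,
      0xffffffffffffffff000000000000000000ffffffffffffffff000000000000000000ffffffffffffffff,
      0x1000000000000000000ffffffffffffffff,
      0x3000000000000000000000000000000000200000000000000000000000000000000010000000000000000000000000000000000,
      0x400fc3e0f43c0ec3a0e4380dc360d4340cc320c4300bc2e0b42c0ac2a0a42809c260942408c220842007c1e0741c06c1a0641805c160541404c120441003c0e0340c02c0a0240801c060140400c0200400⟩]
  es := [.pol [-1, 1] (.var 0),
    .var 0]
  re := [(-1596319021992637454967774265241032746, -1596319021992637454967774265241032745, 1329227995784915872903807060280344576),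
    (1596319021992637454967774265241032745, 1596319021992637454967774265241032746, 1329227995784915872903807060280344576)]
  od := [⟨3, 0, [false, true, false, false, false, false, false]⟩]

end Pool.Agent.Lib.MP_ab8df0_nt.P
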