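import Pool.Agent.Lib.MP_ab8df0_nt.B.PackMk
import Pool.Agent.Lib.MP_ab8df0_nt.P.M3D
import Pool.Agent.Lib.MP_ab8df0_nt.A.M3.Main

/-! The places of a field. -/

namespace Pool.Agent.Lib.MP_ab8df0_nt.P.M3

open B NumberField

def lc : List (SG × LocCert) := [(⟨[-2, -6, 15, -20, 15, -6], [1, 1], 1, [-1, 1], 1⟩,
    ⟨[-2, -6, 15, -20, 15, -6, 1], [0, 1],
    [5620548075863805574, 18446744073709551614, 1],
    [8776381325077693077, 11241096151727611142, 12826195997845746049, 18446744073709551612, 1], []⟩),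
  (⟨[-3, 0, 0, 0, 0, 0], [0, 1], 1, [0, 1], 1⟩,
    ⟨[-3, 0, 0, 0, 0, 0, 1], [1, 1, 1],
    [14396929400941498649, 0, 12826195997845746043, 0, 1],
    [5620548075863805573, 0, 1], []⟩)]

def oc : List OC := [⟨⟨[-3, 0, 0, 0, 0, 0], [0, 1], 1, [0, 1], 1⟩,
    0, [0, 1], ([1], [0, 0, 0, 0, 0, 1]), ([1], [1]),
    [(0, [1], [-1]),
     (1, [1], [1]),
     (0, [1], [2]),
     (0, [1], [1, 1]),
     (0, [1], [-1, 1]),
     (0, [1], [1, 0, 1]),
     (0, [1], [-1, 0, 0, 1])]⟩]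

theorem pack' {K : Type} [Field K] [NumberField K] {α : 𝓞 K} (h : A.Gen α A.M3.fl) :
    ∃ pl ph w, Pack K FDM3 α pl ph w :=
  pack_of FDM3 h A.M3.g (fun _ => A.M3.SU h) lc oc (by decide +kernel)

theorem pack : ∃ pl ph w, Pack (A.Fl A.M3.fl) FDM3 (A.rt A.M3.fl) pl ph w :=
  pack' (A.gen_rt _)

end Pool.Agent.Lib.MP_ab8df0_nt.P.M3
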