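import Pool.Agent.Lib.MP_ab8df0_nt.B.PackMk
import Pool.Agent.Lib.MP_ab8df0_nt.P.N0D
import Pool.Agent.Lib.MP_ab8df0_nt.A.N0.Pub

/-! The places of a field. -/

namespace Pool.Agent.Lib.MP_ab8df0_nt.P.N0

open B NumberField

def lc : List (SG × LocCert) := [(⟨[-2, 0, 0, 0, 0, 0, 0, 0, 0, 0, 0, 0, 0, 0, 0], [0, 1], 1, [0, 1], 1⟩,
    ⟨[-2, 0, 0, 0, 0, 0, 0, 0, 0, 0, 0, 0, 0, 0, 0, 1], [0, 1],
    [18446744073709551614, 0, 0, 0, 0, 0, 0, 0, 0, 0, 0, 0, 0, 0, 0, 1],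
    [1], []⟩)]

def oc : List OC := [⟨⟨[-2, 0, 0, 0, 0, 0, 0, 0, 0, 0, 0, 0, 0, 0, 0], [0, 1], 1, [0, 1], 1⟩,
    -1, [1, 1], ([1], [1, -1, 1, -1, 1, -1, 1, -1, 1, -1, 1, -1, 1, -1, 1]), ([1], [1]),
    [(0, [1], [-1]),
     (0, [1], [0, 1]),
     (0, [1], [-1, 1]),
     (1, [1], [1]),
     (0, [1], [1, 0, 1]),
     (3, [1], [-9, 9, -8, 7, -6, 5, -4, 3, -2, 1, 0, -1, 2, -3, 4]),
     (0, [1], [-1, 0, 0, 1]),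
     (1, [1], [1, -1, 1, -1, 1]),
     (0, [1], [-1, 0, 0, 0, 0, 1]),
     (0, [1], [1, 0, 0, 0, 0, 0, 1]),
     (6, [1], [-2467, 2252, -1957, 1602, -1208, 796, -386, -4, 359, -667, 919, -1109, 1234, -1294, 1292]),
     (0, [1], [1, 0, 0, 0, 0, 0, 0, 0, 0, 0, 1]),
     (0, [1], [1, 0, 0, -1, 0, 1])]⟩]

theorem pack' {K : Type} [Field K] [NumberField K] {α : 𝓞 K} (h : A.Gen α A.N0.fb) :
    ∃ pl ph w, Pack K FDN0 α pl ph w :=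
  pack_of FDN0 h A.N0.gb (fun _ => A.N0.SUb h) lc oc (by decide +kernel)

theorem pack : ∃ pl ph w, Pack (A.Fl A.N0.fb) FDN0 (A.rt A.N0.fb) pl ph w :=
  pack' (A.gen_rt _)

end Pool.Agent.Lib.MP_ab8df0_nt.P.N0
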