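import Pool.Agent.Lib.MP_ab8df0_nt.B.PackMk
import Pool.Agent.Lib.MP_ab8df0_nt.P.N1D
import Pool.Agent.Lib.MP_ab8df0_nt.A.N1.Glob

/-! The places of a field. -/

namespace Pool.Agent.Lib.MP_ab8df0_nt.P.N1

open B NumberField

def lc : List (SG × LocCert) := [(⟨[-2, 0, 0, 0, 0, 24, 0, 0, 0, 0, -6, 0, 0, 0, 0], [0, 0, 4, 0, 0, 0, 0, 4, 0, 0, 0, 0, 1], 8, [0, 0, 0, 67, 0, 0, 0, 0, -19, 0, 0, 0, 0, 3], 17⟩,
    ⟨[-2, 0, 0, 0, 0, 24, 0, 0, 0, 0, -6, 0, 0, 0, 0, 1], [0, 1],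
    [18446744073709551614, 0, 0, 0, 0, 24, 0, 0, 0, 0, 18446744073709551610, 0, 0, 0, 0, 1],
    [1], []⟩)]

def oc : List OC := [⟨⟨[-8, 0, 0, 0, 0, 12, 0, 0, 0, 0, 6, 0, 0, 0, 0], [0, 1], 1, [0, 1], 1⟩,
    -1, [1, 1], ([5], [7, -7, 7, -7, 7, 5, -5, 5, -5, 5, 1, -1, 1, -1, 1]), ([1], [1]),
    [(0, [1], [-1]),
     (0, [1], [0, 0, 0, 0, 32, 0, 0, 0, 0, 12, 0, 0, 0, 0, 2]),
     (0, [1], [2]),
     (2, [5], [16, 80, -176, 272, -208, 0, 40, -80, 120, -100, 8, 0, -8, 16, -14]),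
     (0, [1], [16, 0, 0, 40, 0, 0, 0, 0, 16, 0, 0, 0, 0, 2]),
     (5, [5], [52, -140, 128, 0, -228, 400, -400, 350, -250, 110, -4, -20, 29, -25, 11]),
     (0, [1], [31, 0, 0, 0, 0, 13, 0, 0, 0, 0, 2]),
     (3, [5], [176, -32, -288, 784, -976, 600, -400, 160, 120, -260, 128, -96, 56, -8, -18]),
     (3, [5], [-96, -16, 128, -240, 352, 0, -40, 80, -120, 160, 2, -8, 14, -20, 26]),
     (4, [5], [-680, 264, 348, -960, 1376, -300, 120, 140, -400, 580, -50, 22, 19, -60, 88]),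
     (3, [5], [-56, -64, 92, -28, -28, 240, -260, 240, -180, 130, -8, -12, 21, -19, 16]),
     (2, [5], [64, 64, -32, 0, -68, 40, 20, 0, -20, -10, -8, 12, -6, 0, -4]),
     (3, [5], [-192, 136, -24, -44, 68, 140, -100, 100, -90, 70, 54, -42, 38, -32, 24])]⟩]

theorem pack' {K : Type} [Field K] [NumberField K] {α : 𝓞 K} (h : A.Gen α A.N1.G.fl) :
    ∃ pl ph w, Pack K FDN1 α pl ph w :=
  pack_of FDN1 h A.N1.G.g (fun _ => A.N1.G.SU h) lc oc (by decide +kernel)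

theorem pack : ∃ pl ph w, Pack (A.Fl A.N1.G.fl) FDN1 (A.rt A.N1.G.fl) pl ph w :=
  pack' (A.gen_rt _)

end Pool.Agent.Lib.MP_ab8df0_nt.P.N1
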