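import Pool.Agent.Lib.MP_ab8df0_nt.B.PackMk
import Pool.Agent.Lib.MP_ab8df0_nt.P.N2D
import Pool.Agent.Lib.MP_ab8df0_nt.A.N2.Pub

/-! The places of a field. -/

namespace Pool.Agent.Lib.MP_ab8df0_nt.P.N2

open B NumberField

def lc : List (SG × LocCert) := [(⟨[-2, 0, 0, 0, 0, 6, 0, 0, 0, 0, -6, 0, 0, 0, 0], [0, 1], 1, [0, 1], 1⟩,
    ⟨[-2, 0, 0, 0, 0, 6, 0, 0, 0, 0, -6, 0, 0, 0, 0, 1], [0, 1],
    [18446744073709551614, 0, 0, 0, 0, 6, 0, 0, 0, 0, 18446744073709551610, 0, 0, 0, 0, 1],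
    [1], []⟩)]

def oc : List OC := [⟨⟨[-2, 0, 0, 0, 0, 6, 0, 0, 0, 0, -6, 0, 0, 0, 0], [0, 1], 1, [0, 1], 1⟩,
    -1, [1, 1], ([5], [13, -13, 13, -13, 13, -7, 7, -7, 7, -7, 1, -1, 1, -1, 1]), ([1], [1]),
    [(0, [1], [-1]),
     (0, [1], [0, 1]),
     (0, [1], [2]),
     (0, [1], [-1, 1]),
     (1, [1], [1]),
     (3, [5], [-9, 1, 12, -25, 38, -9, 16, -23, 30, -37, 2, -3, 4, -5, 6]),
     (1, [1], [1, -1, 1, -1, 1]),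
     (3, [5], [40, -41, 29, -4, -34, -35, 19, 4, -34, 71, 5, -2, -2, 7, -13]),
     (0, [1], [-1, -1, 0, 1]),
     (0, [1], [-1, 0, 0, -1, 1]),
     (1, [5], [-3, 3, -3, 8, -8, 7, -7, 7, -7, 7, -1, 1, -1, 1, -1]),
     (2, [5], [-6, 3, 0, -3, 6, 9, -7, 5, 2, -9, -2, 1, 0, -1, 2]),
     (0, [1], [4, 2, 1, 0, 0, -6, -5, -5, 0, 0, 1, 1, 1])]⟩]

theorem pack' {K : Type} [Field K] [NumberField K] {α : 𝓞 K} (h : A.Gen α A.N2.fb) :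
    ∃ pl ph w, Pack K FDN2 α pl ph w :=
  pack_of FDN2 h A.N2.gb (fun _ => A.N2.SUb h) lc oc (by decide +kernel)

theorem pack : ∃ pl ph w, Pack (A.Fl A.N2.fb) FDN2 (A.rt A.N2.fb) pl ph w :=
  pack' (A.gen_rt _)

end Pool.Agent.Lib.MP_ab8df0_nt.P.N2
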