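import Pool.Agent.Lib.MP_ab8df0_nt.B.PackMk
import Pool.Agent.Lib.MP_ab8df0_nt.P.N3D
import Pool.Agent.Lib.MP_ab8df0_nt.A.N3.Glob

/-! The places of a field. -/

namespace Pool.Agent.Lib.MP_ab8df0_nt.P.N3

open B NumberField

def lc : List (SG × LocCert) := [(⟨[-2, 0, 0, 0, 0, 6, 0, 0, 0, 0, 0, 0, 0, 0, 0], [0, 16, 0, 0, 0, 0, 8, 0, 0, 0, 0, 1], 32, [0, 4, 0, 0, 0, 0, -1, 0, 0, 0, 0, 1], 3⟩,
    ⟨[-2, 0, 0, 0, 0, 6, 0, 0, 0, 0, 0, 0, 0, 0, 0, 1], [0, 1],
    [18446744073709551614, 0, 0, 0, 0, 6, 0, 0, 0, 0, 0, 0, 0, 0, 0, 1],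
    [1], []⟩)]

def oc : List OC := [⟨⟨[-64, 0, 0, 0, 0, 48, 0, 0, 0, 0, 12, 0, 0, 0, 0], [0, 1], 1, [0, 1], 1⟩,
    1, [-1, 1], ([1], [61, 61, 61, 61, 61, 13, 13, 13, 13, 13, 1, 1, 1, 1, 1]), ([1], [1]),
    [(0, [1], [-1]),
     (0, [1], [0, 32, 0, 0, 0, 0, 16, 0, 0, 0, 0, 2]),
     (0, [1], [2]),
     (0, [1], [-64, 32, 0, 0, 0, 0, 16, 0, 0, 0, 0, 2]),
     (2, [1], [304832, 302496, 300160, 297824, 295488, 64576, 64080, 63584, 63088, 62592, 4952, 4914, 4876, 4838, 4800]),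
     (5, [1], [33545546748, 33285461740, 33027393220, 32771325554, 32517243230, 7105970794, 7050876850, 6996210060, 6941967112, 6888144720, 544949608, 540724510, 536532170, 532372334, 528244750]),
     (0, [1], [-16, 0, 0, 0, 0, 4, 0, 0, 0, 0, 1]),
     (3, [1], [1016061, 1008183, 1000366, 992610, 984915, 215233, 213564, 211908, 210265, 208635, 16506, 16378, 16251, 16125, 16000]),
     (3, [1], [-13236736, -13134112, -13032288, -12931264, -12831040, -2803984, -2782224, -2760640, -2739232, -2718000, -215036, -213366, -211710, -210068, -208440]),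
     (2, [1], [-139392, -138368, -137280, -136192, -135104, -29552, -29312, -29080, -28848, -28616, -2268, -2248, -2230, -2212, -2194]),
     (3, [1], [-115072, -114176, -113280, -112416, -111552, -24384, -24192, -24000, -23816, -23632, -1872, -1856, -1840, -1826, -1812]),
     (3, [1], [-8514496, -8448480, -8382944, -8317920, -8253408, -1803600, -1789632, -1775760, -1761992, -1748328, -138316, -137246, -136182, -135126, -134078]),
     (3, [1], [-26715104, -26507984, -26302456, -26098520, -25896176, -5659076, -5615200, -5571662, -5528462, -5485600, -433989, -430624, -427285, -423972, -420685])]⟩]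

theorem pack' {K : Type} [Field K] [NumberField K] {α : 𝓞 K} (h : A.Gen α A.N3.G.fl) :
    ∃ pl ph w, Pack K FDN3 α pl ph w :=
  pack_of FDN3 h A.N3.G.g (fun _ => A.N3.G.SU h) lc oc (by decide +kernel)

theorem pack : ∃ pl ph w, Pack (A.Fl A.N3.G.fl) FDN3 (A.rt A.N3.G.fl) pl ph w :=
  pack' (A.gen_rt _)

end Pool.Agent.Lib.MP_ab8df0_nt.P.N3
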