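import Pool.Agent.Lib.MP_ab8df0_nt.B.PackMk
import Pool.Agent.Lib.MP_ab8df0_nt.P.N4D
import Pool.Agent.Lib.MP_ab8df0_nt.A.N4.Main

/-! The places of a field. -/

namespace Pool.Agent.Lib.MP_ab8df0_nt.P.N4

open B NumberField

def lc : List (SG × LocCert) := [(⟨[-2, 0, 0, 0, 0, -12, 0, 0, 0, 0, -18, 0, 0, 0, 0], [0, 0, 0, 8, 0, 0, 0, 0, -5, 0, 0, 0, 0, 1], 2, [0, 0, -29, 0, 0, 0, 0, -73, 0, 0, 0, 0, 4], 3⟩,
    ⟨[-2, 0, 0, 0, 0, -12, 0, 0, 0, 0, -18, 0, 0, 0, 0, 1], [0, 1],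
    [18446744073709551614, 0, 0, 0, 0, 18446744073709551604, 0, 0, 0, 0, 18446744073709551598, 0, 0, 0, 0, 1],
    [1], []⟩)]

def oc : List OC := [⟨⟨[-4, 0, 0, 0, 0, 12, 0, 0, 0, 0, -6, 0, 0, 0, 0], [0, 1], 1, [0, 1], 1⟩,
    1, [-1, 1], ([-1], [7, 7, 7, 7, 7, -5, -5, -5, -5, -5, 1, 1, 1, 1, 1]), ([1], [1]),
    [(0, [1], [-1]),
     (0, [1], [0, 1]),
     (0, [1], [2]),
     (1, [1], [1]),
     (0, [1], [1, 0, 1]),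
     (1, [1], [1, 1, 1, 1, 1]),
     (0, [1], [1, 0, 0, 0, 0, 0, 0, 0, 0, 0, 1]),
     (0, [1], [-1, -1, 0, 1]),
     (0, [1], [0, 0, -1, 0, 1, 1]),
     (5, [1], [-5438, -6438, -7650, -9110, -10860, 3360, 3855, 4495, 5295, 6275, -694, -762, -860, -990, -1155]),
     (0, [1], [0, 0, 2, 0, 0, 1, 1]),
     (1, [1], [0, 0, 0, 0, 0, 0, 2, 2, 1, 1, 1]),
     (1, [1], [6, 6, 6, 8, 8, -4, -4, -4, -5, -5, 1, 1, 1, 1, 1]),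
     (1, [1], [14, 14, 16, 18, 22, -14, -14, -14, -14, -15, 3, 3, 3, 3, 3])]⟩]

theorem pack' {K : Type} [Field K] [NumberField K] {α : 𝓞 K} (h : A.Gen α A.N4.fl) :
    ∃ pl ph w, Pack K FDN4 α pl ph w :=
  pack_of FDN4 h A.N4.g (fun _ => A.N4.SU h) lc oc (by decide +kernel)

theorem pack : ∃ pl ph w, Pack (A.Fl A.N4.fl) FDN4 (A.rt A.N4.fl) pl ph w :=
  pack' (A.gen_rt _)

end Pool.Agent.Lib.MP_ab8df0_nt.P.N4
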