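import Pool.Agent.Lib.MP_ab8df0_nt.B.PackMk
import Pool.Agent.Lib.MP_ab8df0_nt.P.P15D
import Pool.Agent.Lib.MP_ab8df0_nt.A.P15.Main

/-! The places of a field. -/

namespace Pool.Agent.Lib.MP_ab8df0_nt.P.P15

open B NumberField

def lc : List (SG × LocCert) := [(⟨[1, 4, -4, -1], [0, 1], 1, [0, 1], 1⟩,
    ⟨[1, 4, -4, -1, 1], [1, 0, 0, 1, 1],
    [1, 4, 340282366920938463463374607431768211452, 340282366920938463463374607431768211455, 1],
    [1], []⟩)]

def oc : List OC := []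

theorem pack' {K : Type} [Field K] [NumberField K] {α : 𝓞 K} (h : A.Gen α A.P15.fl) :
    ∃ pl ph w, Pack K FDP15 α pl ph w :=
  pack_of FDP15 h A.P15.g (fun _ => A.P15.SU h) lc oc (by decide +kernel)

theorem pack : ∃ pl ph w, Pack (A.Fl A.P15.fl) FDP15 (A.rt A.P15.fl) pl ph w :=
  pack' (A.gen_rt _)

end Pool.Agent.Lib.MP_ab8df0_nt.P.P15
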