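import Pool.Agent.Lib.MP_ab8df0_nt.B.PackMk
import Pool.Agent.Lib.MP_ab8df0_nt.P.Q5aD
import Pool.Agent.Lib.MP_ab8df0_nt.A.Q5a.Main

/-! The places of a field. -/

namespace Pool.Agent.Lib.MP_ab8df0_nt.P.Q5a

open B NumberField

def lc : List (SG × LocCert) := [(⟨[-2, 5, 0, 5, 0], [0, 1], 1, [0, 1], 1⟩,
    ⟨[-2, 5, 0, 5, 0, 1], [0, 1],
    [40387225926457598471526962598378549582, 1],
    [9006925508539923296557248881192366313, 5617789517420237631734378362771554242, 335567002428566464849881527294650676169, 299895140994480864991847644833389661874, 1], []⟩),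
  (⟨[-2, 5, 0, 5, 0], [0, 1], 1, [0, 1], 1⟩,
    ⟨[-2, 5, 0, 5, 0, 1], [1, 1, 1],
    [9006925508539923296557248881192366313, 5617789517420237631734378362771554242, 335567002428566464849881527294650676169, 299895140994480864991847644833389661874, 1],
    [40387225926457598471526962598378549582, 1], []⟩)]

def oc : List OC := []

theorem pack' {K : Type} [Field K] [NumberField K] {α : 𝓞 K} (h : A.Gen α A.Q5a.fl) :
    ∃ pl ph w, Pack K FDQ5a α pl ph w :=
  pack_of FDQ5a h A.Q5a.g (fun _ => A.Q5a.SU h) lc oc (by decide +kernel)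

theorem pack : ∃ pl ph w, Pack (A.Fl A.Q5a.fl) FDQ5a (A.rt A.Q5a.fl) pl ph w :=
  pack' (A.gen_rt _)

end Pool.Agent.Lib.MP_ab8df0_nt.P.Q5a
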