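import Pool.Agent.Lib.MP_ab8df0_nt.B.PackMk
import Pool.Agent.Lib.MP_ab8df0_nt.P.Q5bD
import Pool.Agent.Lib.MP_ab8df0_nt.A.Q5b.Main

/-! The places of a field. -/

namespace Pool.Agent.Lib.MP_ab8df0_nt.P.Q5b

open B NumberField

def lc : List (SG × LocCert) := [(⟨[-4, 5, 0, -5, 0], [0, 1], 1, [0, 1], 1⟩,
    ⟨[-4, 5, 0, -5, 0, 1], [0, 1],
    [311554154547564702964402003485141835660, 1],
    [257640748757176644771641560051619121717, 157407680177006714027126632206804414204, 141158029092252121913306642568382723211, 28728212373373760498972603946626375796, 1], []⟩),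
  (⟨[-4, 5, 0, -5, 0], [0, 1], 1, [0, 1], 1⟩,
    ⟨[-4, 5, 0, -5, 0, 1], [1, 1, 1],
    [257640748757176644771641560051619121717, 157407680177006714027126632206804414204, 141158029092252121913306642568382723211, 28728212373373760498972603946626375796, 1],
    [311554154547564702964402003485141835660, 1], []⟩)]

def oc : List OC := []

theorem pack' {K : Type} [Field K] [NumberField K] {α : 𝓞 K} (h : A.Gen α A.Q5b.fl) :
    ∃ pl ph w, Pack K FDQ5b α pl ph w :=
  pack_of FDQ5b h A.Q5b.g (fun _ => A.Q5b.SU h) lc oc (by decide +kernel)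

theorem pack : ∃ pl ph w, Pack (A.Fl A.Q5b.fl) FDQ5b (A.rt A.Q5b.fl) pl ph w :=
  pack' (A.gen_rt _)

end Pool.Agent.Lib.MP_ab8df0_nt.P.Q5b
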